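import Pool.Agent.X315.PolyWeak
import Pool.Agent.TH303.LTwo

/-!
Joint law of the width, the height, the area and the squared radius of gyration of the uniform
square-lattice self-avoiding polygon, each divided by its mean: the joint laws for the perimeters
`2 n` and `2 n + 2` are at bounded-Lipschitz distance at most `K (log n) / n^(1/2)`; convergence of
the joint law along sparse sequences of perimeters implies its convergence.
-/

open Filter Topology MeasureTheory

namespace Pool.Agent.Results.MP_c23e5f_co.JointLaws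

/-- a closed nearest-neighbour loop on `ℤ²` with `m` steps, rooted at the origin and oriented,
that visits no vertex twice -/
def IsLoop (m : ℕ) (f : ZMod m → ℤ × ℤ) : Prop :=
  f 0 = 0 ∧ Function.Injective f ∧
    ∀ i : ZMod m, |(f (i + 1)).1 - (f i).1| + |(f (i + 1)).2 - (f i).2| = 1

/-- the width (horizontal extent) of a loop -/
noncomputable def width (m : ℕ) (f : ZMod m → ℤ × ℤ) : ℕ :=
  sSup {w : ℕ | ∃ i j, w = ((f i).1 - (f j).1).natAbs}

/-- the height (vertical extent) of a loop -/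
noncomputable def height (m : ℕ) (f : ZMod m → ℤ × ℤ) : ℕ :=
  sSup {w : ℕ | ∃ i j, w = ((f i).2 - (f j).2).natAbs}

/-- the edge from `f k` to `f (k+1)` is horizontal, joins the columns `x = a` and `x = a + 1`, and
has height larger than `b`: it lies above the unit cell `[a, a+1] × [b, b+1]` -/
def Above (m : ℕ) (f : ZMod m → ℤ × ℤ) (a b : ℤ) (k : ZMod m) : Prop :=
  (((f k).1 = a ∧ (f (k + 1)).1 = a + 1) ∨ ((f k).1 = a + 1 ∧ (f (k + 1)).1 = a)) ∧ b < (f k).2

/-- the unit cell `[a, a+1] × [b, b+1]` is enclosed by the loop: the vertical ray from the cell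
upwards crosses an odd number of edges -/
def Encl (m : ℕ) (f : ZMod m → ℤ × ℤ) (c : ℤ × ℤ) : Prop :=
  Odd (Nat.card {k : ZMod m // Above m f c.1 c.2 k})

/-- the area: the number of unit cells enclosed by the loop -/
noncomputable def area (m : ℕ) (f : ZMod m → ℤ × ℤ) : ℕ := Nat.card {c : ℤ × ℤ // Encl m f c}

/-- the square of the radius of gyration of the `m` vertices:
`(1 / (2 m²)) ∑_{i, j} |f i - f j|²` -/
noncomputable def gyr (m : ℕ) (f : ZMod m → ℤ × ℤ) : ℝ :=
  (∑ᶠ i, ∑ᶠ j, ((((f i).1 - (f j).1 : ℤ) : ℝ) ^ 2 + (((f i).2 - (f j).2 : ℤ) : ℝ) ^ 2)) /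
    (2 * (m : ℝ) ^ 2)

/-- expectation under the uniform law on the (rooted, oriented) self-avoiding polygons of
perimeter `2 n` -/
noncomputable def E (n : ℕ) (F : (ZMod (2 * n) → ℤ × ℤ) → ℝ) : ℝ :=
  (∑ᶠ f ∈ {f : ZMod (2 * n) → ℤ × ℤ | IsLoop (2 * n) f}, F f) /
    ({f : ZMod (2 * n) → ℤ × ℤ | IsLoop (2 * n) f}.ncard : ℝ)

/-- the mean width `W_n` -/
noncomputable def W (n : ℕ) : ℝ := E n (fun f => (width (2 * n) f : ℝ))

/-- the mean height `H_n` -/
noncomputable def H (n : ℕ) : ℝ := E n (fun f => (height (2 * n) f : ℝ))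

/-- the mean area `A_n` -/
noncomputable def A (n : ℕ) : ℝ := E n (fun f => (area (2 * n) f : ℝ))

/-- the mean squared radius of gyration `R_n` -/
noncomputable def R (n : ℕ) : ℝ := E n (fun f => gyr (2 * n) f)

/-- `E[g(width / W_n, height / H_n, area / A_n, gyr / R_n)]` for perimeter `2 n` -/
noncomputable def L (n : ℕ) (g : ℝ × ℝ × ℝ × ℝ → ℝ) : ℝ :=
  E n (fun f => g ((width (2 * n) f : ℝ) / W n, (height (2 * n) f : ℝ) / H n,
    (area (2 * n) f : ℝ) / A n, gyr (2 * n) f / R n))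

theorem L_eq {n : ℕ} (hn : 2 ≤ n) (g : ℝ × ℝ × ℝ × ℝ → ℝ) :
    L n g = Pool.Agent.W387.Q.PJ.L4 n g := by
  rw [Pool.Agent.W387.Q.PJ.L4_me hn g]
  have h : H n = Pool.Agent.H739K.MW n := Pool.Agent.W387.Q.PJ.me_height hn
  unfold L
  rw [h]
  rfl

/-- **Theorem.** (1) There is `K` such that for all `n ≥ 2` and all functions `g : ℝ⁴ → [-1, 1]`
with Lipschitz constant `1` for the maximum norm,
`|E[g(w/W, h/H, a/A, r/R)](n + 1) - E[g(w/W, h/H, a/A, r/R)](n)| ≤ K (log n) / n^(1/2)`, where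
`w, h, a, r` are the width, the height, the area and the squared radius of gyration of the uniform
polygon of perimeter `2 n` and `W, H, A, R` their means.
(2) Let `s_k → ∞` be a sequence of integers with `(s_{k+1} - s_k) (log s_k) / s_k^(1/2) → 0` and
`ν` a Borel probability measure on `ℝ⁴`.  If the joint law of `(w/W, h/H, a/A, r/R)` converges
weakly to `ν` along `n = s_k`, then it does so along all `n`. -/
theorem result : (∃ K : ℝ, ∀ n : ℕ, 2 ≤ n → ∀ g : ℝ × ℝ × ℝ × ℝ → ℝ,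
      (∀ x y, |g x - g y| ≤ dist x y) → (∀ x, |g x| ≤ 1) →
        |L (n + 1) g - L n g| ≤ K * (Real.log n / Real.sqrt n)) ∧
    ∀ s : ℕ → ℕ, Tendsto s atTop atTop →
      Tendsto (fun k => ((s (k + 1) : ℝ) - s k) * (Real.log (s k) / Real.sqrt (s k)))
        atTop (𝓝 0) →
      ∀ ν : Measure (ℝ × ℝ × ℝ × ℝ), IsProbabilityMeasure ν →
      (∀ g : ℝ × ℝ × ℝ × ℝ → ℝ, Continuous g → (∃ C, ∀ x, |g x| ≤ C) →
        Tendsto (fun k => L (s k) g) atTop (𝓝 (∫ x, g x ∂ν))) →
      ∀ g : ℝ × ℝ × ℝ × ℝ → ℝ, Continuous g → (∃ C, ∀ x, |g x| ≤ C) →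
        Tendsto (fun n => L n g) atTop (𝓝 (∫ x, g x ∂ν)) := by
  refine ⟨?_, fun s hs hgap' ν hν h g hg hgb => ?_⟩
  · obtain ⟨K, hK⟩ := Pool.Agent.W387.Q.PJ.joint
    refine ⟨K, fun n hn g h1 h2 => ?_⟩
    rw [← Pool.Agent.TH508.LT.rN_eq hn, L_eq hn, L_eq (by omega)]
    exact hK n hn g h1 h2
  · have hgap := Pool.Agent.TH303.LTwo.gap s hs hgap'
    have h' : ∀ g : ℝ × ℝ × ℝ × ℝ → ℝ, Continuous g → (∃ C, ∀ x, |g x| ≤ C) →
        Tendsto (fun k => Pool.Agent.W387.Q.PJ.L4 (s k) g) atTop (𝓝 (∫ x, g x ∂ν)) := by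
      intro g hg hgb
      refine (h g hg hgb).congr' ?_
      filter_upwards [hs.eventually (eventually_ge_atTop 2)] with k hk
      exact L_eq hk g
    have h2 := Pool.Agent.W387.Q.PJ.weak4 s hs hgap ν h' g hg hgb
    refine h2.congr' ?_
    filter_upwards [eventually_ge_atTop 2] with n hn
    exact (L_eq hn g).symm

end Pool.Agent.Results.MP_c23e5f_co.JointLaws
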