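import Pool.Agent.X144.Np.All

/-!
The width of the square-lattice self-avoiding polygons: bounds for the probability that a polygon is
much narrower than it should be, in terms of the correlation length of the self-avoiding walk.
-/

set_option autoImplicit false

namespace Pool.Agent.Results.MP_c23e5f_co.NarrowPolygons

open Filter Topology

/-- a closed nearest-neighbour loop on `ℤ²` with `m` steps, rooted at the origin and oriented,
that visits no vertex twice -/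
def IsLoop (m : ℕ) (f : ZMod m → ℤ × ℤ) : Prop :=
  f 0 = 0 ∧ Function.Injective f ∧
    ∀ i : ZMod m, |(f (i + 1)).1 - (f i).1| + |(f (i + 1)).2 - (f i).2| = 1

/-- the width (horizontal extent) of a loop -/
noncomputable def width (m : ℕ) (f : ZMod m → ℤ × ℤ) : ℕ :=
  sSup {w : ℕ | ∃ i j, w = ((f i).1 - (f j).1).natAbs}

/-- the height (vertical extent) of a loop -/
noncomputable def height (m : ℕ) (f : ZMod m → ℤ × ℤ) : ℕ :=
  sSup {w : ℕ | ∃ i j, w = ((f i).2 - (f j).2).natAbs}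

/-- the proportion of the self-avoiding polygons of perimeter `2 n` with width at most `r` -/
noncomputable def narrow (n : ℕ) (r : ℝ) : ℝ :=
  ({f : ZMod (2 * n) → ℤ × ℤ | IsLoop (2 * n) f ∧ (width (2 * n) f : ℝ) ≤ r}.ncard : ℝ) /
    ({f : ZMod (2 * n) → ℤ × ℤ | IsLoop (2 * n) f}.ncard : ℝ)

/-- the proportion of the self-avoiding polygons of perimeter `2 n` with width at most `r` and
height at most `s` -/
noncomputable def box (n : ℕ) (r s : ℝ) : ℝ :=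
  ({f : ZMod (2 * n) → ℤ × ℤ | IsLoop (2 * n) f ∧ (width (2 * n) f : ℝ) ≤ r ∧
    (height (2 * n) f : ℝ) ≤ s}.ncard : ℝ) /
    ({f : ZMod (2 * n) → ℤ × ℤ | IsLoop (2 * n) f}.ncard : ℝ)

/-- `ω` is an `n`-step self-avoiding walk on `ℤ²` started at the origin. -/
def IsSAW (n : ℕ) (ω : Fin (n + 1) → ℤ × ℤ) : Prop :=
  ω 0 = (0, 0) ∧
  (∀ i : Fin n, |(ω i.succ).1 - (ω i.castSucc).1| + |(ω i.succ).2 - (ω i.castSucc).2| = 1) ∧
  Function.Injective ω

/-- `c_n`: the number of `n`-step self-avoiding walks from the origin -/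
noncomputable def c (n : ℕ) : ℕ := Nat.card {ω : Fin (n + 1) → ℤ × ℤ // IsSAW n ω}

/-- `c_n(x)`: the number of `n`-step self-avoiding walks from the origin to `x` -/
noncomputable def cx (n : ℕ) (x : ℤ × ℤ) : ℕ :=
  Nat.card {ω : Fin (n + 1) → ℤ × ℤ // IsSAW n ω ∧ ω (Fin.last n) = x}

/-- the two-point function `G_z(x) = ∑_n c_n(x) z^n` -/
noncomputable def G (z : ℝ) (x : ℤ × ℤ) : ℝ := ∑' n : ℕ, (cx n x : ℝ) * z ^ n

theorem c_eq (n : ℕ) : c n = TH795.EP.c n := TH795.EP2.card_walks n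

theorem cx_eq (n : ℕ) (x : ℤ × ℤ) : cx n x = TH795.EP.a n x.1 x.2 := TH795.EP2.card_walks_to n x

theorem G_eq (z : ℝ) (k : ℕ) : G z ((k : ℤ), 0) = Y981.L2.Gz z k 0 := by
  unfold G Y981.L2.Gz
  apply tsum_congr
  intro n
  rw [cx_eq]

theorem narrow_eq (n : ℕ) (r : ℝ) : narrow n r = X144.Np.nw n r := rfl

theorem box_eq (n : ℕ) (r s : ℝ) : box n r s = X144.Np.nar n r s := rfl

/-- **Theorem.** Let `μ = lim c_n^(1/n)`.  For `0 < z < 1/μ` the correlation length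
`ξ(z) = (lim_k - (1/k) log G_z((k, 0)))^(-1)` of the self-avoiding walk exists and is positive and
finite.
(1) There is `K > 0` such that for all `n ≥ N ≥ 2`, with `ξ_N = ξ(e^(-1/N)/μ)`, the proportion of the
polygons of perimeter `2 n` with width at most `K ξ_N (log N)^2` and height at most
`K (n/N) ξ_N (log N)^2` is at least `exp (- K (n/N) (log N)^2)`;
(2) if `θ > 0` and `ξ(z) ≤ (1/μ - z)^(-θ-o(1))` as `z ↑ 1/μ`, then for all `0 < a < θ` the proportion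
of the polygons of perimeter `2 n` with width at most `n^a` is at least `exp (- n^(1-a/θ+o(1)))`;
(3) for all `0 < a < 1` this proportion is at least `exp (- n^(1-a+o(1)))`;
(4) if `0 < θ < 1` and `ξ(z) ≤ (1/μ - z)^(-θ-o(1))` as `z ↑ 1/μ`, then for all `0 < a < 1 - θ` this
proportion is at most `exp (- n^((1-a-θ)/(1-θ)-o(1)))`. -/
theorem result : ∃ (μ : ℝ) (ξ : ℝ → ℝ), 0 < μ ∧
    Tendsto (fun n : ℕ => (c n : ℝ) ^ (1 / (n : ℝ))) atTop (𝓝 μ) ∧
    (∀ z : ℝ, 0 < z → z < 1 / μ → 0 < ξ z ∧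
      Tendsto (fun k : ℕ => - Real.log (G z ((k : ℤ), 0)) / k) atTop (𝓝 (1 / ξ z))) ∧
    (∃ K : ℝ, 0 < K ∧ ∀ N n : ℕ, 2 ≤ N → N ≤ n →
      Real.exp (-(K * ((n : ℝ) / N * Real.log N ^ 2))) ≤
        box n (K * (ξ (Real.exp (-(1 / (N : ℝ))) / μ) * Real.log N ^ 2))
          (K * ((n : ℝ) / N * ξ (Real.exp (-(1 / (N : ℝ))) / μ) * Real.log N ^ 2))) ∧
    (∀ θ : ℝ, 0 < θ →
      (∀ ε : ℝ, 0 < ε → ∀ᶠ z in 𝓝[<] (1 / μ), ξ z ≤ (1 / μ - z) ^ (-(θ + ε))) →
      ∀ a : ℝ, 0 < a → a < θ → ∀ ε : ℝ, 0 < ε → ∀ᶠ n : ℕ in atTop,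
        Real.exp (-(n : ℝ) ^ (1 - a / θ + ε)) ≤ narrow n ((n : ℝ) ^ a)) ∧
    (∀ a : ℝ, 0 < a → a < 1 → ∀ ε : ℝ, 0 < ε → ∀ᶠ n : ℕ in atTop,
        Real.exp (-(n : ℝ) ^ (1 - a + ε)) ≤ narrow n ((n : ℝ) ^ a)) ∧
    (∀ θ : ℝ, 0 < θ → θ < 1 →
      (∀ ε : ℝ, 0 < ε → ∀ᶠ z in 𝓝[<] (1 / μ), ξ z ≤ (1 / μ - z) ^ (-(θ + ε))) →
      ∀ a : ℝ, 0 < a → a < 1 - θ → ∀ ε : ℝ, 0 < ε → ∀ᶠ n : ℕ in atTop,
        narrow n ((n : ℝ) ^ a) ≤ Real.exp (-(n : ℝ) ^ ((1 - a - θ) / (1 - θ) - ε))) := by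
  have hmu := H981.mu_pos
  refine ⟨H981.mu, Y981.L2.xi, hmu, ?_, ?_, ?_, ?_, ?_, ?_⟩
  · have h := H981.tendsto_root
    refine h.congr ?_
    intro n
    rw [c_eq, TH795.EP.c_eq]
  · intro z hz hz1
    have he : 0 < -Real.log (z * H981.mu) := by
      have h1 : z * H981.mu < 1 := by rwa [lt_div_iff₀ hmu] at hz1
      have h2 := Real.log_neg (mul_pos hz hmu) h1
      linarith
    have hm := Y981.L2.mass_pos he
    constructor
    · unfold Y981.L2.xi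
      positivity
    · have h := Y981.L2.G_tendsto hz hz1
      unfold Y981.L2.xi
      rw [one_div_one_div]
      refine h.congr ?_
      intro k
      rw [G_eq]
  · obtain ⟨K, hK, h⟩ := X144.Np.poly_xi
    exact ⟨K, hK, fun N n hN hn => h N n hN hn⟩
  · intro θ hθ hξ a ha haθ ε hε
    exact X144.Np.width_low hθ ((Y981.L2.xi_upper θ hθ).2 hξ) ha haθ hε
  · intro a ha ha1 ε hε
    have h := X144.Np.width_low one_pos X144.Cp.massLow_one ha ha1 hε
    filter_upwards [h] with n hn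
    rw [div_one] at hn
    exact hn
  · intro θ hθ hθ1 hξ a ha haθ ε hε
    obtain ⟨-, hU2⟩ := X144.Fi.fisher_up hθ hθ1
    exact X144.Np.nw_up hθ hθ1 (hU2.1 ((Y981.L2.xi_upper θ hθ).2 hξ)) ha haθ hε

end Pool.Agent.Results.MP_c23e5f_co.NarrowPolygons
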