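import Pool.Agent.X44.GR.PL3

/-!
# The width of self-avoiding polygons in half-planes and other domains: all moments, joint laws

The uniform self-avoiding polygon on `ℤ²` with `2 n` edges through the origin in a domain `D` (a
half-plane with the origin on its boundary, the plane with a slit, the whole plane, or any set in which
the number of polygons is at least `μ^(2m) exp (- A (log m)^s)` for `m` between `n / 2` and `2 n`). For
all sizes which are maxima over the pairs of vertices of a Lipschitz function (the width, the height, the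
widths in all directions, the diameter, …) the products of arbitrary real powers have means whose ratio
for `2 n + 2` and `2 n` edges is `1 + O((log n)^s / √n)`, and under the law biased by such a product the
joint law of the maxima over the pairs of vertices of `k'` arbitrary functions changes by at most
`K ((log n)^s ((log n)^s + k') / n)^(1/2)` in total variation.

Proof in outline. Double counting of the pairs (polygon, inserted bump): at most four bumps of a polygon
are pivotal for a maximum over the pairs of vertices. Hence the weights are nearly invariant under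
insertions on average; the number of insertions which leave the domain is of order `(log n)^s`.
-/

set_option autoImplicit false
set_option linter.unusedVariables false

namespace Pool.Agent.Results.MP_c23e5f_co.WidthInDomains

open Filter Topology
open scoped Classical

/-- The `n`-step self-avoiding walks on `ℤ²` from the origin (used to define `μ`). -/
def walks (n : ℕ) : Set (Fin (n + 1) → ℤ × ℤ) :=
  {w | w 0 = 0 ∧ Function.Injective w ∧ ∀ i : Fin n,
    |(w i.succ).1 - (w i.castSucc).1| + |(w i.succ).2 - (w i.castSucc).2| = 1}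

/-- The self-avoiding polygons with `m ≥ 4` edges in `D` through the origin, as closed loops rooted at the
origin, with an orientation (every polygon through the origin is counted twice). -/
def loops (D : Set (ℤ × ℤ)) (m : ℕ) : Set (ZMod m → ℤ × ℤ) :=
  {f | f 0 = 0 ∧ Function.Injective f ∧
    (∀ i : ZMod m, |(f (i + 1)).1 - (f i).1| + |(f (i + 1)).2 - (f i).2| = 1) ∧ ∀ i, f i ∈ D}

/-- The mean of `g` under the uniform law on the polygons with `2 n` edges in `D` through the origin. -/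
noncomputable def mean (D : Set (ℤ × ℤ)) (n : ℕ) (g : (ZMod (2 * n) → ℤ × ℤ) → ℝ) : ℝ :=
  (∑ᶠ f ∈ loops D (2 * n), g f) / ((loops D (2 * n)).ncard : ℝ)

/-- The maximum of `h` over the pairs of vertices of the polygon. -/
noncomputable def pairmax (h : ℤ × ℤ → ℤ × ℤ → ℝ) {m : ℕ} (f : ZMod m → ℤ × ℤ) : ℝ :=
  ⨆ x : ZMod m × ZMod m, h (f x.1) (f x.2)

/-- Gauges: functions of two sites with `h(0, 0) ≤ 1` which are 1-Lipschitz for the `ℓ¹` distance. -/
structure Gauge (h : ℤ × ℤ → ℤ × ℤ → ℝ) : Prop where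
  zero : h 0 0 ≤ 1
  lip : ∀ x y x' y' : ℤ × ℤ, |h x y - h x' y'| ≤
    |(x.1 : ℝ) - x'.1| + |(x.2 : ℝ) - x'.2| + |(y.1 : ℝ) - y'.1| + |(y.2 : ℝ) - y'.2|

/-- The product of the powers `q i` of the sizes `max 1 (pairmax (h i) f)`. -/
noncomputable def weight {k : ℕ} (h : Fin k → ℤ × ℤ → ℤ × ℤ → ℝ) (q : Fin k → ℝ) {m : ℕ}
    (f : ZMod m → ℤ × ℤ) : ℝ := ∏ i, (max 1 (pairmax (h i) f)) ^ q i

/-- Stability of the moments and of the joint laws of sizes at `n` in `D`, with the constant `K`, the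
exponent `s`, for `k` gauges and exponents bounded by `P`:
* `moment`: the means of `∏ (size i)^(q i)` for `2 n + 2` and `2 n` edges have the ratio
  `1 + O(K (log n)^s / √n)`;
* `law`: under the law biased by `∏ (size i)^(q i)`, the mean of every function `g` with values in
  `[0, 1]` of the maxima over pairs of `k'` arbitrary functions changes at most by
  `K ((log n)^s ((log n)^s + k') / n)^(1/2)`. -/
structure Stable (K : ℝ) (s k : ℕ) (P : ℝ) (D : Set (ℤ × ℤ)) (n : ℕ) : Prop where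
  moment : ∀ (h : Fin k → ℤ × ℤ → ℤ × ℤ → ℝ) (q : Fin k → ℝ), (∀ i, Gauge (h i)) →
    (∀ i, |q i| ≤ P) →
    |mean D (n + 1) (weight h q) / mean D n (weight h q) - 1| ≤ K * (Real.log n ^ s / √n)
  law : ∀ (h : Fin k → ℤ × ℤ → ℤ × ℤ → ℝ) (q : Fin k → ℝ), (∀ i, Gauge (h i)) → (∀ i, |q i| ≤ P) →
    ∀ (k' : ℕ) (h' : Fin k' → ℤ × ℤ → ℤ × ℤ → ℝ) (g : (Fin k' → ℝ) → ℝ),
    (∀ t, 0 ≤ g t ∧ g t ≤ 1) →
    |mean D (n + 1) (fun f => weight h q f * g (fun i => pairmax (h' i) f)) /
        mean D (n + 1) (weight h q) -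
      mean D n (fun f => weight h q f * g (fun i => pairmax (h' i) f)) / mean D n (weight h q)| ≤
      K * √((Real.log n ^ s + k') * Real.log n ^ s / n)

/-- The width of the polygon: the largest difference of the first coordinates of its vertices. -/
noncomputable def width {m : ℕ} (f : ZMod m → ℤ × ℤ) : ℝ :=
  ⨆ x : ZMod m × ZMod m, (((f x.1).1 : ℝ) - (f x.2).1)

/-- the gauge of the width -/
def wg (x y : ℤ × ℤ) : ℝ := (x.1 : ℝ) - y.1

lemma wg_gauge : Gauge wg := by
  refine ⟨by unfold wg; simp, fun x y x' y' => ?_⟩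
  unfold wg
  have e : (x.1 : ℝ) - y.1 - ((x'.1 : ℝ) - y'.1) = ((x.1 : ℝ) - x'.1) - ((y.1 : ℝ) - y'.1) := by ring
  rw [e]
  refine (abs_sub _ _).trans ?_
  have h1 := abs_nonneg ((x.2 : ℝ) - x'.2)
  have h2 := abs_nonneg ((y.2 : ℝ) - y'.2)
  linarith

lemma width_eq {D : Set (ℤ × ℤ)} {n : ℕ} (hn : 2 ≤ n) {f : ZMod (2 * n) → ℤ × ℤ}
    (hf : f ∈ loops D (2 * n)) : max 1 (pairmax wg f) = width f :=
  max_eq_right (Pool.Agent.X44.GR.PL.one_le_width (by omega) hf.2.1 hf.2.2.1)

/-- **Theorem.** Let `μ = lim c_n^(1/n)`, `c_n` the number of all `n`-step self-avoiding walks on `ℤ²`,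
`P` real and `k` a number of gauges.
(1) For all `A` and `s ≥ 2` there is `K` such that for every `D ⊆ ℤ²` and `n ≥ 2` with
`#(loops D (2 m)) ≥ μ^(2m) exp (- A (log m)^s)` for all `m` with `n/2 ≤ m ≤ 2n`: `Stable K s k P D n`.
(2) There is `K` with `Stable K 2 k P D n` for every `n ≥ 3` and every `D` which contains the half plane
`{(x, y) : y > 0, or y = 0 and x ≥ 0}`.
(3) There is `K` such that for such `D`, all `n ≥ 3` and `|p| ≤ P` the ratio of the means of
`width^p` for `2 n + 2` and for `2 n` edges is `1` up to the error `K (log n)^2 / √n`.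
(4) There is `K` such that for such `D` and `n ≥ 3` the law of the width changes by at most
`K (log n)^2 / √n` in total variation: for every set `S` of reals the probabilities of `width ∈ S` for
`2 n + 2` and for `2 n` edges differ at most by this. -/
theorem result : ∃ μ : ℝ, 0 < μ ∧
    Tendsto (fun n : ℕ => ((walks n).ncard : ℝ) ^ (1 / (n : ℝ))) atTop (𝓝 μ) ∧
    ∀ P : ℝ,
    (∀ (k : ℕ) (A : ℝ) (s : ℕ), 2 ≤ s → ∃ K : ℝ, ∀ (D : Set (ℤ × ℤ)) (n : ℕ), 2 ≤ n →
      (∀ m : ℕ, n ≤ 2 * m → m ≤ 2 * n →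
        μ ^ (2 * m) * Real.exp (-(A * Real.log m ^ s)) ≤ ((loops D (2 * m)).ncard : ℝ)) →
      Stable K s k P D n) ∧
    (∀ k : ℕ, ∃ K : ℝ, ∀ D : Set (ℤ × ℤ), {x : ℤ × ℤ | 0 < x.2 ∨ (x.2 = 0 ∧ 0 ≤ x.1)} ⊆ D →
      ∀ n : ℕ, 3 ≤ n → Stable K 2 k P D n) ∧
    (∃ K : ℝ, ∀ D : Set (ℤ × ℤ), {x : ℤ × ℤ | 0 < x.2 ∨ (x.2 = 0 ∧ 0 ≤ x.1)} ⊆ D →
      ∀ n : ℕ, 3 ≤ n → ∀ p : ℝ, |p| ≤ P →
      |mean D (n + 1) (fun f => width f ^ p) / mean D n (fun f => width f ^ p) - 1| ≤
        K * (Real.log n ^ 2 / √n)) ∧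
    (∃ K : ℝ, ∀ D : Set (ℤ × ℤ), {x : ℤ × ℤ | 0 < x.2 ∨ (x.2 = 0 ∧ 0 ≤ x.1)} ⊆ D →
      ∀ n : ℕ, 3 ≤ n → ∀ S : Set ℝ,
      |mean D (n + 1) (fun f => if width f ∈ S then 1 else 0) -
        mean D n (fun f => if width f ∈ S then 1 else 0)| ≤ K * (Real.log n ^ 2 / √n)) := by
  have hL : ∀ D m, loops D m = Pool.Agent.X44.GR.PL.loops D m := fun _ _ => rfl
  -- the general statement
  have gen : ∀ (P : ℝ) (k : ℕ) (A : ℝ) (s : ℕ), 2 ≤ s → ∃ K : ℝ, 0 ≤ K ∧ ∀ (D : Set (ℤ × ℤ)) (n : ℕ),
      2 ≤ n → Pool.Agent.X44.GR.PL.Low A s _root_.H981.mu D n → Stable K s k P D n := by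
    intro P k A s hs
    obtain ⟨K, hK, h⟩ := Pool.Agent.X44.GR.PL.sizes A 8 (Pool.Agent.X44.GR.S.Ac s) |P| (by norm_num)
      (abs_nonneg P) s hs k
    refine ⟨2 * K, by positivity, fun D n hn hlow => ⟨fun g q hg hq => ?_,
      fun q hq hg hqP k' h' f hf => ?_⟩⟩
    · have h1 := (h D n hn hlow (fun i m w => Pool.Agent.X44.GR.PL.size (g i) w) q
        (fun i => Pool.Agent.X44.GR.PL.good_size ⟨(hg i).zero, (hg i).lip⟩ hs (by omega))
        (fun i => (hq i).trans (le_abs_self P))).1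
      refine h1.trans ?_
      have : 0 ≤ Real.log (n : ℝ) ^ s / √n :=
        div_nonneg (pow_nonneg (Real.log_natCast_nonneg n) s) (Real.sqrt_nonneg _)
      nlinarith
    · have h1 := (h D n hn hlow (fun i m w => Pool.Agent.X44.GR.PL.size (q i) w) hq
        (fun i => Pool.Agent.X44.GR.PL.good_size ⟨(hg i).zero, (hg i).lip⟩ hs (by omega))
        (fun i => (hqP i).trans (le_abs_self P))).2 (4 * k')
        (fun m w => f (fun i => Pool.Agent.X44.GR.PL.pairmax (h' i) w)) (by positivity)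
        (fun m w => hf _) (Pool.Agent.X44.GR.PL.infl_pairs h' f hf (2 * n - 1))
      refine h1.trans ?_
      have hl : 0 ≤ Real.log (n : ℝ) ^ s := pow_nonneg (Real.log_natCast_nonneg n) s
      have hk : (0 : ℝ) ≤ k' := Nat.cast_nonneg k'
      have h2 : √((Real.log (n : ℝ) ^ s + 4 * k') * Real.log n ^ s / n) ≤
          2 * √((Real.log (n : ℝ) ^ s + k') * Real.log n ^ s / n) := by
        have e : (2 : ℝ) = √4 := by
          rw [show (4 : ℝ) = 2 ^ 2 by norm_num, Real.sqrt_sq (by norm_num)]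
        rw [e, ← Real.sqrt_mul (by norm_num)]
        apply Real.sqrt_le_sqrt
        rw [mul_div_assoc', ← mul_assoc]
        apply div_le_div_of_nonneg_right _ (Nat.cast_nonneg n)
        apply mul_le_mul_of_nonneg_right _ hl
        linarith
      calc _ ≤ K * (2 * √((Real.log (n : ℝ) ^ s + k') * Real.log n ^ s / n)) :=
            mul_le_mul_of_nonneg_left h2 hK
        _ = _ := by ring
  obtain ⟨A, hA, hhalf⟩ := Pool.Agent.X44.GR.PL.low_half
  have hP2 : ∀ (P : ℝ) (k : ℕ), ∃ K : ℝ, 0 ≤ K ∧ ∀ D : Set (ℤ × ℤ),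
      {x : ℤ × ℤ | 0 < x.2 ∨ (x.2 = 0 ∧ 0 ≤ x.1)} ⊆ D → ∀ n : ℕ, 3 ≤ n → Stable K 2 k P D n := by
    intro P k
    obtain ⟨K2, hK2, hcl⟩ := gen P k A 2 le_rfl
    exact ⟨K2, hK2, fun D hD n hn => hcl D n (by omega) (hhalf D hD n hn)⟩
  refine ⟨_root_.H981.mu, _root_.H981.mu_pos, ?_, fun P =>
    ⟨fun k A s hs => ?_, fun k => ?_, ?_, ?_⟩⟩
  · refine Pool.Agent.X44.GR.V.tendsto_mu.congr (fun n => ?_)
    congr 3
    ext w
    constructor
    · rintro ⟨h1, h2, h3, _⟩
      exact ⟨h1, h2, h3⟩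
    · rintro ⟨h1, h2, h3⟩
      exact ⟨h1, h2, h3, fun _ => Set.mem_univ _⟩
  · obtain ⟨K, hK, h⟩ := gen P k A s hs
    exact ⟨K, fun D n hn hl => h D n hn hl⟩
  · obtain ⟨K, hK, h⟩ := hP2 P k
    exact ⟨K, h⟩
  · obtain ⟨K, hK, h⟩ := hP2 P 1
    refine ⟨K, fun D hD n hn p hp => ?_⟩
    have h1 := (h D hD n hn).moment (fun _ => wg) (fun _ => p) (fun _ => wg_gauge) (fun _ => hp)
    have e : ∀ m : ℕ, 2 ≤ m → mean D m (weight (k := 1) (fun _ => wg) (fun _ => p)) =
        mean D m (fun f => width f ^ p) := by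
      intro m hm
      unfold mean
      congr 1
      refine finsum_mem_congr rfl (fun f hf => ?_)
      unfold weight
      rw [Fin.prod_univ_one, width_eq hm hf]
    rw [e n (by omega), e (n + 1) (by omega)] at h1
    exact h1
  · obtain ⟨K, hK, h⟩ := hP2 P 0
    refine ⟨2 * K, fun D hD n hn S => ?_⟩
    have h1 := (h D hD n hn).law (fun i => i.elim0) (fun i => i.elim0) (fun i => i.elim0)
      (fun i => i.elim0) 1 (fun _ => wg) (fun t => if t 0 ∈ S then 1 else 0)
      (fun t => by split_ifs <;> norm_num)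
    have e1 : ∀ m : ℕ, 2 ≤ m → (loops D (2 * m)).Nonempty →
        mean D m (weight (k := 0) (fun i => i.elim0) (fun i => i.elim0)) = 1 := by
      intro m hm hne
      have hfin : (loops D (2 * m)).Finite := by
        obtain ⟨M, rfl⟩ : ∃ M, m = M + 1 := ⟨m - 1, by omega⟩
        have h2 := Pool.Agent.X44.GR.PL.loops_image D (2 * M + 1)
        have h3 : loops D (2 * (M + 1)) = Pool.Agent.X44.GR.PL.loops D (2 * M + 1 + 1) := rfl
        rw [h3, h2]
        exact (Finset.finite_toSet _).image _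
      unfold mean weight
      simp only [Finset.univ_eq_empty, Finset.prod_empty]
      rw [finsum_mem_eq_finite_toFinset_sum _ hfin, Finset.sum_const, nsmul_eq_mul, mul_one,
        ← Set.ncard_eq_toFinset_card _ hfin]
      have : (0 : ℝ) < ((loops D (2 * m)).ncard : ℝ) := by
        exact_mod_cast (Set.ncard_pos hfin).2 hne
      exact div_self this.ne'
    have hne : ∀ m : ℕ, n ≤ 2 * m → m ≤ 2 * n → (loops D (2 * m)).Nonempty := by
      intro m g1 g2
      have h2 := hhalf D hD n hn m g1 g2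
      have h3 : (0 : ℝ) < ((loops D (2 * m)).ncard : ℝ) := lt_of_lt_of_le
        (mul_pos (pow_pos _root_.H981.mu_pos _) (Real.exp_pos _)) h2
      have h4 : 0 < (loops D (2 * m)).ncard := by exact_mod_cast h3
      exact Set.nonempty_of_ncard_ne_zero h4.ne'
    rw [e1 n (by omega) (hne n (by omega) (by omega)),
      e1 (n + 1) (by omega) (hne (n + 1) (by omega) (by omega)), div_one, div_one] at h1
    have e2 : ∀ m : ℕ, mean D m (fun f => weight (k := 0) (fun i => i.elim0) (fun i => i.elim0) f *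
        (if pairmax wg f ∈ S then 1 else 0)) = mean D m (fun f => if width f ∈ S then 1 else 0) := by
      intro m
      unfold mean weight
      congr 1
      refine finsum_mem_congr rfl (fun f hf => ?_)
      simp only [Finset.univ_eq_empty, Finset.prod_empty, one_mul]
      rfl
    rw [e2, e2] at h1
    refine h1.trans ?_
    have hn' : (3 : ℝ) ≤ n := by exact_mod_cast hn
    have hnp : (0 : ℝ) < n := by linarith
    have hl1 : 1 ≤ Real.log (n : ℝ) ^ 2 := one_le_pow₀ (Pool.Agent.H739K.RATE.one_le_log hn)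
    obtain ⟨l, hl⟩ : ∃ l : ℝ, l = Real.log (n : ℝ) ^ 2 := ⟨_, rfl⟩
    rw [← hl] at hl1 ⊢
    have h5 : √((l + ((1 : ℕ) : ℝ)) * l / n) ≤ 2 * (l / √n) := by
      apply Real.sqrt_le_iff.2
      refine ⟨by positivity, ?_⟩
      rw [mul_pow, div_pow, Real.sq_sqrt hnp.le, mul_div_assoc']
      apply div_le_div_of_nonneg_right _ hnp.le
      push_cast
      nlinarith
    calc K * √((l + ((1 : ℕ) : ℝ)) * l / n) ≤ K * (2 * (l / √n)) := by gcongr
      _ = _ := by ring

end Pool.Agent.Results.MP_c23e5f_co.WidthInDomains
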